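import Mathlib

/-!
# Relative termination of the four-letter system of MP_081fbf_lc
-/

namespace Pool.Agent.X238.Srt

/-- the alphabet -/
inductive Letter
  | a | b | c | d
  deriving DecidableEq

open Letter

/-- a string rewriting system: a list of rules `(ℓ, r)` -/
abbrev SRS := List (List Letter × List Letter)

/-- one rewrite step `x = u ℓ v → u r v = y` -/
def Step (T : SRS) (x y : List Letter) : Prop :=
  ∃ u v l r, (l, r) ∈ T ∧ x = u ++ l ++ v ∧ y = u ++ r ++ v

/-- the strict rules -/
def R : SRS := [([a, d], [d, b]), ([a], [b, b, b]), ([d], []), ([a], []),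
  ([b, c], [c, d, d]), ([a, c], [b, b, c, d])]

/-- the non-strict rules -/
def S : SRS := [([b, d, b], [a, d]), ([a, d], [b, d, b])]

/-- `SN(R/S)`: every infinite rewrite sequence over `R ∪ S` has only finitely many `R`-steps. -/
def SNrel (R S : SRS) : Prop :=
  ∀ x : ℕ → List Letter, (∀ n, Step R (x n) (x (n + 1)) ∨ Step S (x n) (x (n + 1))) →
    {n | Step R (x n) (x (n + 1))}.Finite

/-- the effect of a letter on the list of values -/
def act : Letter → List ℕ → List ℕ
  | a, h :: t => (h + 4) :: t
  | b, h :: t => (h + 1) :: t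
  | c, l => 0 :: l
  | d, h :: t => (3 * h + 1) :: t
  | _, [] => []

/-- the list of values of a word, one value for each block between consecutive `c`s -/
def mu : List Letter → List ℕ
  | [] => [0]
  | x :: w => act x (mu w)

/-- lexicographic order on lists of equal length -/
inductive LL : List ℕ → List ℕ → Prop
  | head {h h' : ℕ} {t t' : List ℕ} : h < h' → t.length = t'.length → LL (h :: t) (h' :: t')
  | tail {h : ℕ} {t t' : List ℕ} : LL t t' → LL (h :: t) (h :: t')

theorem LL.length {l l' : List ℕ} (h : LL l l') : l.length = l'.length := by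
  induction h with
  | head _ h => simp [h]
  | tail _ ih => simp [ih]

/-- the ordinal of a list -/
noncomputable def ordL : List ℕ → Ordinal.{0}
  | [] => 0
  | h :: t => Ordinal.omega0 ^ t.length * (h : Ordinal) + ordL t

theorem ordL_lt (t : List ℕ) : ordL t < Ordinal.omega0 ^ t.length := by
  induction t with
  | nil => simp [ordL]
  | cons h t ih =>
    rw [ordL, List.length_cons]
    have h1 : Ordinal.omega0 ^ t.length * (h : Ordinal) + ordL t <
        Ordinal.omega0 ^ t.length * ((h : Ordinal) + 1) := by
      rw [mul_add, mul_one]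
      exact (add_lt_add_iff_left _).mpr ih
    have h2 : Ordinal.omega0 ^ t.length * ((h : Ordinal) + 1) ≤
        Ordinal.omega0 ^ (t.length + 1) := by
      rw [pow_succ]
      have h3 : ((h : Ordinal) + 1) ≤ Ordinal.omega0 := by
        have := Ordinal.natCast_lt_omega0 (h + 1)
        push_cast at this
        exact this.le
      exact mul_le_mul_right h3 _
    exact lt_of_lt_of_le h1 h2

theorem LL.ordL_lt {l l' : List ℕ} (h : LL l l') : ordL l < ordL l' := by
  induction h with
  | @head h h' t t' hlt hlen =>
    rw [ordL, ordL, hlen]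
    have h1 : Ordinal.omega0 ^ t'.length * (h : Ordinal) + ordL t <
        Ordinal.omega0 ^ t'.length * ((h : Ordinal) + 1) := by
      rw [mul_add, mul_one]
      refine (add_lt_add_iff_left _).mpr ?_
      rw [← hlen]
      exact Srt.ordL_lt t
    have h2 : Ordinal.omega0 ^ t'.length * ((h : Ordinal) + 1) ≤
        Ordinal.omega0 ^ t'.length * (h' : Ordinal) := by
      have h3 : ((h : Ordinal) + 1) ≤ (h' : Ordinal) := by
        have : h + 1 ≤ h' := hlt
        exact_mod_cast this
      exact mul_le_mul_right h3 _
    exact lt_of_lt_of_le (lt_of_lt_of_le h1 h2) le_self_add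
  | @tail h t t' h1 ih =>
    rw [ordL, ordL, h1.length]
    exact (add_lt_add_iff_left _).mpr ih

theorem act_LL (x : Letter) {l l' : List ℕ} (h : LL l l') : LL (act x l) (act x l') := by
  cases x with
  | a =>
    cases h with
    | head h1 h2 => exact LL.head (by omega) h2
    | tail h1 => exact LL.tail h1
  | b =>
    cases h with
    | head h1 h2 => exact LL.head (by omega) h2
    | tail h1 => exact LL.tail h1
  | c => exact LL.tail h
  | d =>
    cases h with
    | head h1 h2 => exact LL.head (by omega) h2
    | tail h1 => exact LL.tail h1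

theorem mu_ne_nil (w : List Letter) : mu w ≠ [] := by
  induction w with
  | nil => simp [mu]
  | cons x w ih =>
    rw [mu]
    cases h : mu w with
    | nil => exact absurd h ih
    | cons y l => cases x <;> simp [act]

theorem mu_append_LL (u : List Letter) {v v' : List Letter} (h : LL (mu v) (mu v')) :
    LL (mu (u ++ v)) (mu (u ++ v')) := by
  induction u with
  | nil => exact h
  | cons x u ih => exact act_LL x ih

theorem mu_append_eq (u : List Letter) {v v' : List Letter} (h : mu v = mu v') :
    mu (u ++ v) = mu (u ++ v') := by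
  induction u with
  | nil => exact h
  | cons x u ih =>
    show act x (mu (u ++ v)) = act x (mu (u ++ v'))
    rw [ih]

theorem step_R {x y : List Letter} (h : Step R x y) : LL (mu y) (mu x) := by
  obtain ⟨u, v, l, r, hlr, rfl, rfl⟩ := h
  rw [List.append_assoc, List.append_assoc]
  apply mu_append_LL
  cases hv : mu v with
  | nil => exact absurd hv (mu_ne_nil v)
  | cons h t =>
    simp only [R, List.mem_cons, Prod.mk.injEq, List.not_mem_nil, or_false] at hlr
    rcases hlr with ⟨rfl, rfl⟩ | ⟨rfl, rfl⟩ | ⟨rfl, rfl⟩ | ⟨rfl, rfl⟩ | ⟨rfl, rfl⟩ | ⟨rfl, rfl⟩ <;>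
      simp only [List.cons_append, List.nil_append, mu, hv, act] <;>
      refine LL.head ?_ ?_ <;> first | omega | simp

theorem step_S {x y : List Letter} (h : Step S x y) : mu y = mu x := by
  obtain ⟨u, v, l, r, hlr, rfl, rfl⟩ := h
  rw [List.append_assoc, List.append_assoc]
  apply mu_append_eq
  cases hv : mu v with
  | nil => exact absurd hv (mu_ne_nil v)
  | cons h t =>
    simp only [S, List.mem_cons, Prod.mk.injEq, List.not_mem_nil, or_false] at hlr
    rcases hlr with ⟨rfl, rfl⟩ | ⟨rfl, rfl⟩ <;>
      simp only [List.cons_append, List.nil_append, mu, hv, act, List.cons.injEq, and_true] <;>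
      omega

theorem snrel : SNrel R S := by
  intro x hx
  set f : ℕ → Ordinal.{0} := fun n => ordL (mu (x n)) with hf
  have hle : ∀ n, f (n + 1) ≤ f n := by
    intro n
    rcases hx n with h | h
    · exact (step_R h).ordL_lt.le
    · rw [hf]
      simp only
      rw [step_S h]
  have hanti : Antitone f := antitone_nat_of_succ_le hle
  obtain ⟨N, hN⟩ : ∃ N, ∀ n, f N ≤ f n := by
    have hne : (Set.range f).Nonempty := ⟨f 0, 0, rfl⟩
    obtain ⟨o, ⟨N, hN⟩, hmin⟩ :=
      (wellFounded_lt (α := Ordinal.{0})).has_min (Set.range f) hne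
    refine ⟨N, fun n => ?_⟩
    rw [hN]
    exact not_lt.mp (hmin _ ⟨n, rfl⟩)
  refine (Set.finite_lt_nat N).subset fun n hn => ?_
  by_contra hcon
  have hNn : N ≤ n := by simpa using hcon
  have h1 : f (n + 1) < f n := (step_R hn).ordL_lt
  have h2 := hanti hNn
  exact absurd (hN (n + 1)) (not_le.mpr (lt_of_lt_of_le h1 h2))

end Pool.Agent.X238.Srt
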